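import Mathlib

set_option autoImplicit false

/-! # FIVE, abstract linear algebra over a field with four elements -/

namespace Pool.Agent.U788.TU

section abs

variable {k V : Type*} [Field k] [AddCommGroup V] [Module k V]

theorem rangeE (E G H : V →ₗ[k] V) (hEE : ∀ v, E (E v) = E v) (hGH : ∀ v, G (H v) = E v)
    (hHG : ∀ v, H (G v) = v - E v) (hEG : ∀ v, E (G v) = G v) (hHE : ∀ v, H (E v) = H v)
    (h4 : Module.finrank k V = 4) : Module.finrank k (LinearMap.range E) = 2 := by
  haveI : FiniteDimensional k V := FiniteDimensional.of_finrank_pos (by omega)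
  have hEH : ∀ v, E (H v) = 0 := by
    intro v
    have h1 := hHG (H v)
    rw [hGH, hHE] at h1
    have h2 : H v + E (H v) = H v + 0 := by
      nth_rewrite 1 [h1]
      simp
    exact add_left_cancel h2
  have ha : ∀ x ∈ LinearMap.range E, H x ∈ LinearMap.ker E := by
    intro x _
    exact LinearMap.mem_ker.2 (hEH x)
  have hb : ∀ x ∈ LinearMap.ker E, G x ∈ LinearMap.range E := by
    intro x _
    exact ⟨G x, hEG x⟩
  have h1 : Module.finrank k (LinearMap.range E) ≤ Module.finrank k (LinearMap.ker E) := by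
    apply LinearMap.finrank_le_finrank_of_injective (f := H.restrict ha)
    rintro ⟨x, y, rfl⟩ ⟨x', y', rfl⟩ hxy
    have h2 : H (E y) = H (E y') := congrArg Subtype.val hxy
    apply Subtype.ext
    have h3 : G (H (E y)) = G (H (E y')) := by rw [h2]
    rw [hGH, hGH, hEE, hEE] at h3
    exact h3
  have h2 : Module.finrank k (LinearMap.ker E) ≤ Module.finrank k (LinearMap.range E) := by
    apply LinearMap.finrank_le_finrank_of_injective (f := G.restrict hb)
    rintro ⟨x, hx⟩ ⟨x', hx'⟩ hxy
    have h2 : G x = G x' := congrArg Subtype.val hxy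
    apply Subtype.ext
    have h3 : H (G x) = H (G x') := by rw [h2]
    rw [hHG, hHG, LinearMap.mem_ker.1 hx, LinearMap.mem_ker.1 hx', sub_zero, sub_zero] at h3
    exact h3
  have h3 := LinearMap.finrank_range_add_finrank_ker E
  omega

theorem five_abs [Finite k] (hk : Nat.card k = 4) (E G H : V →ₗ[k] V) (hEE : ∀ v, E (E v) = E v)
    (hGH : ∀ v, G (H v) = E v)
    (hHG : ∀ v, H (G v) = v - E v) (hEG : ∀ v, E (G v) = G v) (hHE : ∀ v, H (E v) = H v)
    (h4 : Module.finrank k V = 4) (F : Finset (Submodule k V))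
    (hF : ∀ P ∈ F, P ≠ ⊥ ∧ P ≠ ⊤ ∧ ∀ v ∈ P, E v ∈ P ∧ G v ∈ P ∧ H v ∈ P) : F.card ≤ 5 := by
  have h2 := rangeE E G H hEE hGH hHG hEG hHE h4
  haveI : FiniteDimensional k V := FiniteDimensional.of_finrank_pos (by omega)
  set U := LinearMap.range E with hU
  have hdec : ∀ v, v = E v + H (G v) := by intro v; rw [hHG]; abel
  have hL : ∀ P ∈ F, Module.finrank k (P.comap U.subtype) = 1 := by
    intro P hP
    obtain ⟨h0, h1, hs⟩ := hF P hP
    have ha : P.comap U.subtype ≠ ⊤ := by
      intro ht
      apply h1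
      rw [eq_top_iff]
      intro v _
      have hu : ∀ u ∈ U, u ∈ P := by
        intro u hu
        have : (⟨u, hu⟩ : U) ∈ P.comap U.subtype := by rw [ht]; trivial
        exact this
      rw [hdec v]
      apply P.add_mem
      · exact hu _ ⟨v, rfl⟩
      · exact (hs _ (hu _ ⟨G v, hEG v⟩)).2.2
    have hb : P.comap U.subtype ≠ ⊥ := by
      intro ht
      apply h0
      rw [eq_bot_iff]
      intro v hv
      have hu : ∀ u ∈ U, u ∈ P → u = 0 := by
        intro u hu hP
        have : (⟨u, hu⟩ : U) ∈ P.comap U.subtype := hP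
        rw [ht] at this
        exact congrArg Subtype.val ((Submodule.mem_bot k).1 this)
      have h3 : E v = 0 := hu _ ⟨v, rfl⟩ (hs v hv).1
      have h4 : G v = 0 := hu _ ⟨G v, hEG v⟩ (hs v hv).2.1
      rw [Submodule.mem_bot, hdec v, h3, h4, map_zero, add_zero]
    have h3 : Module.finrank k (P.comap U.subtype) < 2 := by
      rw [← h2]
      exact Submodule.finrank_lt ha
    have h5 : 1 ≤ Module.finrank k (P.comap U.subtype) := by
      exact Submodule.one_le_finrank_iff.2 hb
    omega
  haveI : FiniteDimensional k U := inferInstance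
  have hc : Nat.card { L : Submodule k U // Module.finrank k L = 1 } = 5 := by
    rw [← Nat.card_congr (Projectivization.equivSubmodule k U), Projectivization.card_of_finrank_two k U h2, hk]
  haveI : Finite { L : Submodule k U // Module.finrank k L = 1 } :=
    Nat.finite_of_card_ne_zero (by omega)
  have hinj : Function.Injective (fun P : F => (⟨P.1.comap U.subtype, hL P.1 P.2⟩ :
      { L : Submodule k U // Module.finrank k L = 1 })) := by
    have key : ∀ P ∈ F, ∀ P' ∈ F, P.comap U.subtype = P'.comap U.subtype → P ≤ P' := by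
      intro P hP P' hP' h v hv
      obtain ⟨-, -, hs⟩ := hF P hP
      obtain ⟨-, -, hs'⟩ := hF P' hP'
      have hu : ∀ u ∈ U, u ∈ P → u ∈ P' := by
        intro u hu hP
        have h1 : (⟨u, hu⟩ : U) ∈ P.comap U.subtype := hP
        rw [h] at h1
        exact h1
      rw [hdec v]
      apply P'.add_mem
      · exact hu _ ⟨v, rfl⟩ (hs v hv).1
      · exact (hs' _ (hu _ ⟨G v, hEG v⟩ (hs v hv).2.1)).2.2
    rintro ⟨P, hP⟩ ⟨P', hP'⟩ h
    have h1 : P.comap U.subtype = P'.comap U.subtype := congrArg Subtype.val h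
    exact Subtype.ext (le_antisymm (key P hP P' hP' h1) (key P' hP' P hP h1.symm))
  have h6 := Nat.card_le_card_of_injective _ hinj
  rw [hc] at h6
  simpa using h6

theorem mid_abs {A : Type*} [AddCommGroup A] [Module k A] (E G H : A →ₗ[k] A)
    (hEE : ∀ v, E (E v) = E v) (hGH : ∀ v, G (H v) = E v)
    (hHG : ∀ v, H (G v) = v - E v) (hEG : ∀ v, E (G v) = G v) (hHE : ∀ v, H (E v) = H v)
    (hA : Module.finrank k A = 4) (φ : A →ₗ[k] V) (hφ : ∀ a, φ (E a) = φ a)
    (h4 : Module.finrank k V = 4) : LinearMap.range φ ≠ ⊤ := by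
  intro ht
  have h2 := rangeE E G H hEE hGH hHG hEG hHE hA
  haveI : FiniteDimensional k A := FiniteDimensional.of_finrank_pos (by omega)
  haveI : FiniteDimensional k V := FiniteDimensional.of_finrank_pos (by omega)
  have h3 : LinearMap.range φ = (LinearMap.range E).map φ := by
    apply le_antisymm
    · rintro _ ⟨a, rfl⟩
      exact ⟨E a, ⟨a, rfl⟩, hφ a⟩
    · rintro _ ⟨a, -, rfl⟩
      exact ⟨a, rfl⟩
  have h5 : Module.finrank k ((LinearMap.range E).map φ) ≤ Module.finrank k (LinearMap.range E) :=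
    Submodule.finrank_map_le φ _
  rw [← h3, ht, finrank_top, h2, h4] at h5
  omega

end abs

end Pool.Agent.U788.TU
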