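import Mathlib
import Pool.Agent.U68.TU.Stm

set_option autoImplicit false

/-! # FIVE: the field `𝓞 K / s` with four elements and the reduction of a lattice modulo `s` -/

namespace Pool.Agent.U788.TU

open NumberField Quaternion Pool.Agent.U68.TU

variable {K : Type} [Field K] [NumberField K] (B : BQ K)

/-- the ideal generated by `s` -/
abbrev sid : Ideal (𝓞 K) := Ideal.span {B.s}

theorem co_eq (x : 𝓞 K) : x = (B.co x 0 : 𝓞 K) + B.co x 1 * B.f + B.co x 2 * B.s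
    + B.co x 3 * (B.s * B.f) := by
  rw [← B.hco, AddEquiv.symm_apply_apply]

theorem co_of (v : Fin 4 → ℤ) : B.co ((v 0 : 𝓞 K) + v 1 * B.f + v 2 * B.s + v 3 * (B.s * B.f)) = v := by
  rw [← B.hco, AddEquiv.apply_symm_apply]

theorem co_int (a b c d : ℤ) : B.co ((a : 𝓞 K) + b * B.f + c * B.s + d * (B.s * B.f)) = ![a, b, c, d] := by
  have h := co_of B ![a, b, c, d]
  simpa using h

theorem dvd_s_iff (x : 𝓞 K) : B.s ∣ x ↔ (2 : ℤ) ∣ B.co x 0 ∧ (2 : ℤ) ∣ B.co x 1 := by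
  constructor
  · rintro ⟨y, rfl⟩
    have hy := co_eq B y
    have h1 : B.s * y = ((2 * B.co y 2 : ℤ) : 𝓞 K) + ((2 * B.co y 3 : ℤ) : 𝓞 K) * B.f
        + ((B.co y 0 : ℤ) : 𝓞 K) * B.s + ((B.co y 1 : ℤ) : 𝓞 K) * (B.s * B.f) := by
      conv_lhs => rw [hy]
      push_cast
      linear_combination ((B.co y 2 : 𝓞 K) + (B.co y 3 : 𝓞 K) * B.f) * B.hs
    rw [h1, co_int]
    simp
  · rintro ⟨⟨a, ha⟩, ⟨b, hb⟩⟩
    refine ⟨(B.co x 2 : 𝓞 K) + B.co x 3 * B.f + B.s * (a + b * B.f), ?_⟩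
    conv_lhs => rw [co_eq B x]
    rw [ha, hb]
    push_cast
    linear_combination (-(a : 𝓞 K) - b * B.f) * B.hs

theorem mem_sid (x : 𝓞 K) : x ∈ sid B ↔ B.s ∣ x := Ideal.mem_span_singleton

instance maxi : (sid B).IsMaximal := by
  rw [Ideal.isMaximal_iff]
  constructor
  · rw [mem_sid, dvd_s_iff]
    have h := co_int B 1 0 0 0
    have h1 : ((1 : ℤ) : 𝓞 K) + ((0 : ℤ) : 𝓞 K) * B.f + ((0 : ℤ) : 𝓞 K) * B.s + ((0 : ℤ) : 𝓞 K) * (B.s * B.f) = 1 := by
      push_cast; ring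
    rw [h1] at h
    rw [h]
    simp
  · intro J x hJ hx hxJ
    have hk : ∃ y : 𝓞 K, B.s ∣ y * x - 1 := by
      rw [mem_sid, dvd_s_iff] at hx
      have hx' := co_eq B x
      generalize B.co x 0 = a at hx hx'
      generalize B.co x 1 = b at hx hx'
      generalize B.co x 2 = c at hx'
      generalize B.co x 3 = d at hx'
      rcases Int.even_or_odd' a with ⟨a', ha | ha⟩ <;> rcases Int.even_or_odd' b with ⟨b', hb | hb⟩
      · exfalso
        apply hx
        exact ⟨⟨a', ha⟩, ⟨b', hb⟩⟩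
      · -- a even, b odd: x = f, inverse 1 + f
        refine ⟨1 + B.f, ?_⟩
        refine ⟨B.s * (a' + b') + B.s * (a' + 2 * b' + 1) * B.f + (1 + B.f) * (c + d * B.f), ?_⟩
        rw [hx', ha, hb]
        push_cast
        linear_combination (2 * (b' : 𝓞 K) + 1) * B.hf - ((a' : 𝓞 K) + b' + (a' + 2 * b' + 1) * B.f) * B.hs
      · refine ⟨1, ?_⟩
        refine ⟨B.s * a' + B.s * b' * B.f + (c + d * B.f), ?_⟩
        rw [hx', ha, hb]
        push_cast
        linear_combination (-(a' : 𝓞 K) - b' * B.f) * B.hs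
      · -- x = 1 + f, inverse f
        refine ⟨B.f, ?_⟩
        refine ⟨B.s * b' + B.s * (a' + b' + 1) * B.f + B.f * (c + d * B.f), ?_⟩
        rw [hx', ha, hb]
        push_cast
        linear_combination (2 * (b' : 𝓞 K) + 1) * B.hf - ((b' : 𝓞 K) + (a' + b' + 1) * B.f) * B.hs
    obtain ⟨y, hy⟩ := hk
    have h1 : y * x - 1 ∈ J := hJ ((mem_sid B _).2 hy)
    have h2 : y * x ∈ J := J.mul_mem_left y hxJ
    have h3 : y * x - (y * x - 1) ∈ J := J.sub_mem h2 h1
    rwa [sub_sub_cancel] at h3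

/-- the residue field -/
abbrev kk : Type := 𝓞 K ⧸ sid B

noncomputable instance : Field (kk B) := Ideal.Quotient.field _

/-- first two coordinates modulo `2` -/
noncomputable def par : 𝓞 K →+ ZMod 2 × ZMod 2 where
  toFun x := ((B.co x 0 : ZMod 2), (B.co x 1 : ZMod 2))
  map_zero' := by simp
  map_add' x y := by simp

theorem par_ker (x : 𝓞 K) : par B x = 0 ↔ B.s ∣ x := by
  rw [dvd_s_iff, Prod.ext_iff]
  simp only [par, AddMonoidHom.coe_mk, ZeroHom.coe_mk, Prod.fst_zero, Prod.snd_zero]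
  rw [ZMod.intCast_zmod_eq_zero_iff_dvd, ZMod.intCast_zmod_eq_zero_iff_dvd]
  rfl

theorem par_surj : Function.Surjective (par B) := by
  rintro ⟨u, v⟩
  refine ⟨((u.val : ℤ) : 𝓞 K) + ((v.val : ℤ) : 𝓞 K) * B.f + ((0 : ℤ) : 𝓞 K) * B.s
    + ((0 : ℤ) : 𝓞 K) * (B.s * B.f), ?_⟩
  simp only [par, AddMonoidHom.coe_mk, ZeroHom.coe_mk]
  rw [co_int]
  simp

theorem card_kk : Nat.card (kk B) = 4 := by
  have h1 : (sid B).toAddSubgroup = (par B).ker := by
    ext x
    rw [AddMonoidHom.mem_ker, par_ker]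
    exact mem_sid B x
  have h2 : Nat.card (kk B) = (sid B).toAddSubgroup.index := rfl
  rw [h2, h1, AddSubgroup.index_ker, AddMonoidHom.range_eq_top.2 (par_surj B)]
  simp

instance : Finite (kk B) := Nat.finite_of_card_ne_zero (by rw [card_kk]; norm_num)

theorem sK_ne : (B.s : K) ≠ 0 := by
  intro h
  have h1 : B.s = 0 := by
    apply RingOfIntegers.ext
    rw [h]; rfl
  have h2 := B.hs
  rw [h1] at h2
  norm_num at h2

theorem sK_sq : (B.s : K) ^ 2 = 2 := by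
  have h := congrArg (algebraMap (𝓞 K) K) B.hs
  rw [map_pow, map_ofNat] at h
  exact h

end Pool.Agent.U788.TU
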