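import Mathlib
import Pool.Agent.U788.TU.Fld

set_option autoImplicit false

/-! # FIVE: reduction of a lattice modulo `s` -/

namespace Pool.Agent.U788.TU

open NumberField Quaternion Pool.Agent.U68.TU

variable {K : Type} [Field K] [NumberField K] (B : BQ K)

/-- `M / s M` -/
abbrev VQ (M : Submodule (𝓞 K) ℍ[K]) : Type := M ⧸ (sid B • (⊤ : Submodule (𝓞 K) M))

/-- class of an element -/
def cl (M : Submodule (𝓞 K) ℍ[K]) (x : ℍ[K]) (hx : x ∈ M) : VQ B M :=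
  Submodule.Quotient.mk ⟨x, hx⟩

theorem smulK (t : 𝓞 K) (x : ℍ[K]) : t • x = (t : K) • x := by
  rfl

theorem cl_eq (M : Submodule (𝓞 K) ℍ[K]) (x y : ℍ[K]) (hx : x ∈ M) (hy : y ∈ M) :
    cl B M x hx = cl B M y hy ↔ ∃ z ∈ M, x - y = (B.s : K) • z := by
  unfold cl
  rw [Submodule.Quotient.eq, Submodule.ideal_span_singleton_smul, Submodule.mem_smul_pointwise_iff_exists]
  constructor
  · rintro ⟨⟨z, hz⟩, -, h⟩
    refine ⟨z, hz, ?_⟩
    have := congrArg Subtype.val h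
    exact this.symm
  · rintro ⟨z, hz, h⟩
    refine ⟨⟨z, hz⟩, trivial, ?_⟩
    apply Subtype.ext
    exact h.symm

theorem cl_surj (M : Submodule (𝓞 K) ℍ[K]) (v : VQ B M) : ∃ x, ∃ hx : x ∈ M, cl B M x hx = v := by
  obtain ⟨⟨x, hx⟩, h⟩ := Submodule.Quotient.mk_surjective _ v
  exact ⟨x, hx, h⟩

theorem cl_add (M : Submodule (𝓞 K) ℍ[K]) (x y : ℍ[K]) (hx : x ∈ M) (hy : y ∈ M) :
    cl B M x hx + cl B M y hy = cl B M (x + y) (M.add_mem hx hy) := rfl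

theorem cl_sub (M : Submodule (𝓞 K) ℍ[K]) (x y : ℍ[K]) (hx : x ∈ M) (hy : y ∈ M) :
    cl B M x hx - cl B M y hy = cl B M (x - y) (M.sub_mem hx hy) := rfl

theorem cl_zero (M : Submodule (𝓞 K) ℍ[K]) : cl B M 0 M.zero_mem = 0 := rfl

theorem cl_smul (M : Submodule (𝓞 K) ℍ[K]) (t : 𝓞 K) (x : ℍ[K]) (hx : x ∈ M) :
    (Ideal.Quotient.mk (sid B) t : kk B) • cl B M x hx = cl B M (t • x) (M.smul_mem t hx) := rfl

theorem surjA : Function.Surjective (algebraMap (𝓞 K) (kk B)) := Ideal.Quotient.mk_surjective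

/-- the reduction of a linear map -/
noncomputable def mapV (M M' : Submodule (𝓞 K) ℍ[K]) (φ : ℍ[K] →ₗ[𝓞 K] ℍ[K]) (h : ∀ x ∈ M, φ x ∈ M') :
    VQ B M →ₗ[kk B] VQ B M' :=
  LinearMap.extendScalarsOfSurjective (surjA B)
    (Submodule.mapQ (sid B • (⊤ : Submodule (𝓞 K) M)) (sid B • (⊤ : Submodule (𝓞 K) M')) (φ.restrict h)
      (Submodule.smul_top_le_comap_smul_top _ _))

theorem mapV_cl (M M' : Submodule (𝓞 K) ℍ[K]) (φ : ℍ[K] →ₗ[𝓞 K] ℍ[K]) (h : ∀ x ∈ M, φ x ∈ M')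
    (x : ℍ[K]) (hx : x ∈ M) : mapV B M M' φ h (cl B M x hx) = cl B M' (φ x) (h x hx) := rfl

/-- left multiplication -/
def lmul (o : ℍ[K]) : ℍ[K] →ₗ[𝓞 K] ℍ[K] where
  toFun x := o * x
  map_add' x y := mul_add o x y
  map_smul' t x := by
    rw [smulK, RingHom.id_apply, smulK, mul_smul_comm]

/-- right multiplication -/
def rmul (o : ℍ[K]) : ℍ[K] →ₗ[𝓞 K] ℍ[K] where
  toFun x := x * o
  map_add' x y := add_mul x y o
  map_smul' t x := by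
    rw [smulK, RingHom.id_apply, smulK, smul_mul_assoc]

/-- left multiplication -/
noncomputable def Lm (M : Submodule (𝓞 K) ℍ[K]) (o : ℍ[K]) (h : ∀ x ∈ M, o * x ∈ M) :
    VQ B M →ₗ[kk B] VQ B M := mapV B M M (lmul o) h

/-- right multiplication -/
noncomputable def Rm (M M' : Submodule (𝓞 K) ℍ[K]) (o : ℍ[K]) (h : ∀ x ∈ M, x * o ∈ M') :
    VQ B M →ₗ[kk B] VQ B M' := mapV B M M' (rmul o) h

theorem Lm_cl (M : Submodule (𝓞 K) ℍ[K]) (o : ℍ[K]) (h : ∀ x ∈ M, o * x ∈ M) (x : ℍ[K]) (hx : x ∈ M) :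
    Lm B M o h (cl B M x hx) = cl B M (o * x) (h x hx) := rfl

theorem Rm_cl (M M' : Submodule (𝓞 K) ℍ[K]) (o : ℍ[K]) (h : ∀ x ∈ M, x * o ∈ M') (x : ℍ[K]) (hx : x ∈ M) :
    Rm B M M' o h (cl B M x hx) = cl B M' (x * o) (h x hx) := rfl

/-- the image of a submodule -/
def JV (M J : Submodule (𝓞 K) ℍ[K]) : Submodule (kk B) (VQ B M) where
  carrier := {v | ∃ x, ∃ hx : x ∈ M, x ∈ J ∧ cl B M x hx = v}
  add_mem' := by
    rintro _ _ ⟨x, hx, hxJ, rfl⟩ ⟨y, hy, hyJ, rfl⟩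
    exact ⟨x + y, M.add_mem hx hy, J.add_mem hxJ hyJ, rfl⟩
  zero_mem' := ⟨0, M.zero_mem, J.zero_mem, rfl⟩
  smul_mem' := by
    rintro c _ ⟨x, hx, hxJ, rfl⟩
    obtain ⟨t, rfl⟩ := Ideal.Quotient.mk_surjective c
    exact ⟨t • x, M.smul_mem t hx, J.smul_mem t hxJ, rfl⟩

theorem mem_JV (M J : Submodule (𝓞 K) ℍ[K]) (hsJ : ∀ x ∈ M, (B.s : K) • x ∈ J) (x : ℍ[K]) (hx : x ∈ M) :
    cl B M x hx ∈ JV B M J ↔ x ∈ J := by
  constructor
  · rintro ⟨y, hy, hyJ, h⟩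
    rw [cl_eq] at h
    obtain ⟨z, hz, h1⟩ := h
    have h2 : x = y - (B.s : K) • z := by rw [← h1]; abel
    rw [h2]
    exact J.sub_mem hyJ (hsJ z hz)
  · intro h
    exact ⟨x, hx, h, rfl⟩

/-! ### the order -/

/-- parametrization of `OS` -/
noncomputable def Q : (Fin 4 → 𝓞 K) →ₗ[𝓞 K] ℍ[K] where
  toFun v := ⟨(v 0 : K) + v 1 / (B.s : K) + v 2 / (B.s : K) + v 3 / 2,
    (v 1 : K) / (B.s : K) + v 3 / 2, (v 2 : K) / (B.s : K) + v 3 / 2, (v 3 : K) / 2⟩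
  map_add' u v := by
    refine QuaternionAlgebra.ext ?_ ?_ ?_ ?_
    · change ((u 0 + v 0 : 𝓞 K) : K) + ((u 1 + v 1 : 𝓞 K) : K) / (B.s : K)
        + ((u 2 + v 2 : 𝓞 K) : K) / (B.s : K) + ((u 3 + v 3 : 𝓞 K) : K) / 2 =
        ((u 0 : K) + u 1 / (B.s : K) + u 2 / (B.s : K) + u 3 / 2)
          + ((v 0 : K) + v 1 / (B.s : K) + v 2 / (B.s : K) + v 3 / 2)
      push_cast
      ring
    · change ((u 1 + v 1 : 𝓞 K) : K) / (B.s : K) + ((u 3 + v 3 : 𝓞 K) : K) / 2 =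
        (u 1 / (B.s : K) + u 3 / 2) + (v 1 / (B.s : K) + v 3 / 2)
      push_cast
      ring
    · change ((u 2 + v 2 : 𝓞 K) : K) / (B.s : K) + ((u 3 + v 3 : 𝓞 K) : K) / 2 =
        (u 2 / (B.s : K) + u 3 / 2) + (v 2 / (B.s : K) + v 3 / 2)
      push_cast
      ring
    · change ((u 3 + v 3 : 𝓞 K) : K) / 2 = (u 3 : K) / 2 + (v 3 : K) / 2
      push_cast
      ring
  map_smul' t v := by
    refine QuaternionAlgebra.ext ?_ ?_ ?_ ?_
    · change ((t * v 0 : 𝓞 K) : K) + ((t * v 1 : 𝓞 K) : K) / (B.s : K)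
        + ((t * v 2 : 𝓞 K) : K) / (B.s : K) + ((t * v 3 : 𝓞 K) : K) / 2 =
        (t : K) * ((v 0 : K) + v 1 / (B.s : K) + v 2 / (B.s : K) + v 3 / 2)
      push_cast
      ring
    · change ((t * v 1 : 𝓞 K) : K) / (B.s : K) + ((t * v 3 : 𝓞 K) : K) / 2 =
        (t : K) * (v 1 / (B.s : K) + v 3 / 2)
      push_cast
      ring
    · change ((t * v 2 : 𝓞 K) : K) / (B.s : K) + ((t * v 3 : 𝓞 K) : K) / 2 =
        (t : K) * (v 2 / (B.s : K) + v 3 / 2)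
      push_cast
      ring
    · change ((t * v 3 : 𝓞 K) : K) / 2 = (t : K) * ((v 3 : K) / 2)
      push_cast
      ring

theorem Q_inj : Function.Injective (Q B) := by
  intro u v h
  have hs := sK_ne B
  have h1 : (u 0 : K) + u 1 / (B.s : K) + u 2 / (B.s : K) + u 3 / 2 =
      (v 0 : K) + v 1 / (B.s : K) + v 2 / (B.s : K) + v 3 / 2 := congrArg QuaternionAlgebra.re h
  have h2 : (u 1 : K) / (B.s : K) + u 3 / 2 = v 1 / (B.s : K) + v 3 / 2 := congrArg QuaternionAlgebra.imI h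
  have h3 : (u 2 : K) / (B.s : K) + u 3 / 2 = v 2 / (B.s : K) + v 3 / 2 := congrArg QuaternionAlgebra.imJ h
  have h4 : (u 3 : K) / 2 = v 3 / 2 := congrArg QuaternionAlgebra.imK h
  have e3 : (u 3 : K) = v 3 := by
    linear_combination 2 * h4
  have e1 : (u 1 : K) = v 1 := by
    rw [e3] at h2
    exact (div_left_inj' hs).1 (add_right_cancel h2)
  have e2 : (u 2 : K) = v 2 := by
    rw [e3] at h3
    exact (div_left_inj' hs).1 (add_right_cancel h3)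
  have e0 : (u 0 : K) = v 0 := by
    rw [e1, e2, e3] at h1
    linear_combination h1
  funext i
  apply RingOfIntegers.ext
  fin_cases i
  · exact e0
  · exact e1
  · exact e2
  · exact e3

/-- `OS` as a submodule -/
noncomputable def OM : Submodule (𝓞 K) ℍ[K] := LinearMap.range (Q B)

theorem mem_OM (x : ℍ[K]) : x ∈ OM B ↔ InOS B x := by
  constructor
  · rintro ⟨v, rfl⟩
    exact ⟨v 0, v 1, v 2, v 3, rfl⟩
  · rintro ⟨a, b, c, d, rfl⟩
    exact ⟨![a, b, c, d], rfl⟩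

end Pool.Agent.U788.TU
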