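import Mathlib
import Pool.Agent.U788.TU.Red

set_option autoImplicit false

/-! # FIVE: the index of `s M` in `M` is `256` -/

namespace Pool.Agent.U788.TU

open NumberField Quaternion Pool.Agent.U68.TU

variable {K : Type} [Field K] [NumberField K] (B : BQ K)

/-- multiplication by `s` -/
noncomputable def sm : ℍ[K] →+ ℍ[K] where
  toFun x := (B.s : K) • x
  map_zero' := smul_zero _
  map_add' x y := smul_add _ x y

theorem sm_inj : Function.Injective (sm B) := by
  intro x y h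
  have h1 : (B.s : K) • x = (B.s : K) • y := h
  exact smul_right_injective _ (sK_ne B) h1

/-- all coordinates modulo `s` -/
noncomputable def par4 : (Fin 4 → 𝓞 K) →+ (Fin 4 → ZMod 2 × ZMod 2) where
  toFun v := fun i => par B (v i)
  map_zero' := by funext i; simp
  map_add' u v := by funext i; simp

theorem par4_surj : Function.Surjective (par4 B) := by
  intro w
  choose v hv using fun i => par_surj B (w i)
  exact ⟨v, funext hv⟩

theorem idx_OM : ((OM B).toAddSubgroup.map (sm B)).relIndex (OM B).toAddSubgroup = 256 := by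
  have h1 : (OM B).toAddSubgroup = (Q B).toAddMonoidHom.range := by
    ext x
    constructor
    · rintro ⟨v, rfl⟩
      exact ⟨v, rfl⟩
    · rintro ⟨v, rfl⟩
      exact ⟨v, rfl⟩
  have h2 : ((OM B).toAddSubgroup.map (sm B)).comap (Q B).toAddMonoidHom = (par4 B).ker := by
    ext v
    rw [AddMonoidHom.mem_ker, AddSubgroup.mem_comap]
    constructor
    · rintro ⟨_, ⟨w, rfl⟩, h⟩
      have h3 : Q B (B.s • w) = Q B v := by
        rw [map_smul]
        exact h
      have h4 := Q_inj B h3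
      funext i
      rw [← h4]
      change par B (B.s * w i) = 0
      rw [par_ker]
      exact Dvd.intro _ rfl
    · intro h
      have h3 : ∀ i, B.s ∣ v i := by
        intro i
        rw [← par_ker]
        exact congrFun h i
      choose w hw using h3
      refine ⟨Q B w, ⟨w, rfl⟩, ?_⟩
      have h4 : v = B.s • w := funext hw
      rw [h4]
      change _ = Q B (B.s • w)
      rw [map_smul]
      rfl
  rw [h1, ← AddSubgroup.index_comap, ← h1, h2, AddSubgroup.index_ker,
    AddMonoidHom.range_eq_top.2 (par4_surj B)]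
  simp

theorem fin_idx (M : Submodule (𝓞 K) ℍ[K]) (m : ℕ) (hm : 0 < m)
    (hM : ∀ x ∈ OM B, (m : ℍ[K]) * x ∈ M) : M.toAddSubgroup.relIndex (OM B).toAddSubgroup ≠ 0 := by
  have h1 : (OM B).toAddSubgroup = (Q B).toAddMonoidHom.range := by
    ext x
    constructor
    · rintro ⟨v, rfl⟩
      exact ⟨v, rfl⟩
    · rintro ⟨v, rfl⟩
      exact ⟨v, rfl⟩
  rw [h1, ← AddSubgroup.index_comap]
  set L := (M.toAddSubgroup.comap (Q B).toAddMonoidHom).toIntSubmodule with hL
  have h2 : (M.toAddSubgroup.comap (Q B).toAddMonoidHom).index = Nat.card ((Fin 4 → 𝓞 K) ⧸ L) := rfl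
  rw [h2]
  have h3 : Module.Finite ℤ ((Fin 4 → 𝓞 K) ⧸ L) := inferInstance
  have h4 : Module.IsTorsion ℤ ((Fin 4 → 𝓞 K) ⧸ L) := by
    intro x
    obtain ⟨v, rfl⟩ := Submodule.Quotient.mk_surjective L x
    refine ⟨⟨(m : ℤ), mem_nonZeroDivisors_of_ne_zero (by exact_mod_cast hm.ne')⟩, ?_⟩
    change Submodule.Quotient.mk ((m : ℤ) • v) = _
    rw [Submodule.Quotient.mk_eq_zero]
    change Q B ((m : ℤ) • v) ∈ M
    rw [map_zsmul]
    have h5 := hM (Q B v) ⟨v, rfl⟩
    have h6 : (m : ℤ) • Q B v = (m : ℍ[K]) * Q B v := by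
      rw [zsmul_eq_mul]; simp
    rw [h6]
    exact h5
  haveI : Finite ((Fin 4 → 𝓞 K) ⧸ L) := Module.finite_of_fg_torsion _ h4
  exact Nat.card_pos.ne'

theorem idx_M (M : Submodule (𝓞 K) ℍ[K]) (hsub : M ≤ OM B) (m : ℕ) (hm : 0 < m)
    (hM : ∀ x ∈ OM B, (m : ℍ[K]) * x ∈ M) :
    (M.toAddSubgroup.map (sm B)).relIndex M.toAddSubgroup = 256 := by
  have hs : ∀ N : Submodule (𝓞 K) ℍ[K], N.toAddSubgroup.map (sm B) ≤ N.toAddSubgroup := by
    rintro N _ ⟨x, hx, rfl⟩
    exact N.smul_mem B.s hx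
  have h1 := AddSubgroup.relIndex_mul_relIndex _ _ _ (hs M) (show M.toAddSubgroup ≤ (OM B).toAddSubgroup from hsub)
  have h2 := AddSubgroup.relIndex_mul_relIndex _ _ _
    (AddSubgroup.map_mono (f := sm B) (show M.toAddSubgroup ≤ (OM B).toAddSubgroup from hsub)) (hs (OM B))
  rw [AddSubgroup.relIndex_map_map_of_injective _ _ (sm_inj B), idx_OM] at h2
  have h3 := fin_idx B M m hm hM
  rw [← h1, mul_comm] at h2
  exact (Nat.eq_of_mul_eq_mul_right (Nat.pos_of_ne_zero h3) (by rw [← h2])).symm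

theorem card_VQ (M : Submodule (𝓞 K) ℍ[K]) :
    Nat.card (VQ B M) = (M.toAddSubgroup.map (sm B)).relIndex M.toAddSubgroup := by
  have h1 : Nat.card (VQ B M) = (sid B • (⊤ : Submodule (𝓞 K) M)).toAddSubgroup.index := rfl
  rw [h1]
  have h2 : (sid B • (⊤ : Submodule (𝓞 K) M)).toAddSubgroup =
      (M.toAddSubgroup.map (sm B)).addSubgroupOf M.toAddSubgroup := by
    ext ⟨x, hx⟩
    have h3 : (⟨x, hx⟩ : M) ∈ (sid B • (⊤ : Submodule (𝓞 K) M)) ↔ ∃ z ∈ M, x - 0 = (B.s : K) • z := by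
      rw [← cl_eq B M x 0 hx M.zero_mem, cl_zero]
      exact (Submodule.Quotient.mk_eq_zero _).symm
    constructor
    · intro h
      obtain ⟨z, hz, h4⟩ := h3.1 h
      rw [sub_zero] at h4
      exact ⟨z, hz, h4.symm⟩
    · rintro ⟨z, hz, h4⟩
      apply h3.2
      refine ⟨z, hz, ?_⟩
      rw [sub_zero]
      exact h4.symm
  rw [h2]
  rfl

theorem finrank_VQ (M : Submodule (𝓞 K) ℍ[K]) (hsub : M ≤ OM B) (m : ℕ) (hm : 0 < m)
    (hM : ∀ x ∈ OM B, (m : ℍ[K]) * x ∈ M) : Module.finrank (kk B) (VQ B M) = 4 := by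
  have h1 := card_VQ B M
  rw [idx_M B M hsub m hm hM] at h1
  haveI : Finite (VQ B M) := Nat.finite_of_card_ne_zero (by omega)
  have h2 := Module.natCard_eq_pow_finrank (K := kk B) (V := VQ B M)
  rw [h1, card_kk] at h2
  have h3 : 4 ^ 4 = 4 ^ Module.finrank (kk B) (VQ B M) := by rw [← h2]; norm_num
  exact (Nat.pow_right_injective (le_refl 2 |>.trans (by norm_num)) h3).symm

end Pool.Agent.U788.TU
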