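import Mathlib
import Pool.Agent.U788.TU.Idx
import Pool.Agent.U788.TU.Abs

set_option autoImplicit false

/-! # FIVE -/

namespace Pool.Agent.U788.TU

open NumberField Quaternion Pool.Agent.U68.TU

variable {K : Type} [Field K] [NumberField K] (B : BQ K)

/-- an `OS`-stable subgroup as a submodule -/
def SM (hO : S_ORD) (J : AddSubgroup ℍ[K]) (hJ : ∀ o x, InOS B o → x ∈ J → o * x ∈ J) :
    Submodule (𝓞 K) ℍ[K] where
  carrier := {x | x ∈ J}
  add_mem' := fun ha hb => J.add_mem ha hb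
  zero_mem' := J.zero_mem
  smul_mem' := by
    intro t x hx
    obtain ⟨-, -, -, hsm, -, h1, -⟩ := hO K B
    have h2 := hJ ((t : K) • 1) x (hsm t 1 h1) hx
    rw [smul_mul_assoc, one_mul] at h2
    exact h2

theorem mem_SM (hO : S_ORD) (J : AddSubgroup ℍ[K]) (hJ : ∀ o x, InOS B o → x ∈ J → o * x ∈ J) (x : ℍ[K]) :
    x ∈ SM B hO J hJ ↔ x ∈ J := Iff.rfl

theorem relL (M : Submodule (𝓞 K) ℍ[K]) (hst : ∀ o x, InOS B o → x ∈ M → o * x ∈ M) (a b : ℍ[K])
    (hab : ∃ r, InOS B r ∧ a - b = (B.s : K) • r) (x y z : ℍ[K]) (hx : x ∈ M) (hy : y ∈ M) (hz : z ∈ M)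
    (h1 : y = a * x) (h2 : z = b * x) : cl B M y hy = cl B M z hz := by
  obtain ⟨r, hr, h⟩ := hab
  rw [cl_eq]
  refine ⟨r * x, hst r x hr hx, ?_⟩
  rw [h1, h2, ← sub_mul, h, smul_mul_assoc]

theorem relR (hO : S_ORD) (M : Submodule (𝓞 K) ℍ[K]) (hst : ∀ o x, InOS B o → x ∈ M → o * x ∈ M) (a b w : ℍ[K])
    (hw : w ∈ M)
    (hab : ∃ r, InOS B r ∧ a - b = (B.s : K) • r) (x y z : ℍ[K]) (hx : InOS B x) (hy : y ∈ M) (hz : z ∈ M)
    (h1 : y = x * a * w) (h2 : z = x * b * w) : cl B M y hy = cl B M z hz := by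
  obtain ⟨r, hr, h⟩ := hab
  obtain ⟨hmul, -⟩ := hO K B
  rw [cl_eq]
  refine ⟨x * r * w, hst _ w (hmul x r hx hr) hw, ?_⟩
  rw [h1, h2, ← sub_mul, ← mul_sub, h, mul_smul_comm, smul_mul_assoc]

/-- everything we need about the modules in one place -/
theorem pack (hO : S_ORD) (hM : S_MOD) (M : Submodule (𝓞 K) ℍ[K])
    (hst : ∀ o x, InOS B o → x ∈ M → o * x ∈ M) (h4 : Module.finrank (kk B) (VQ B M) = 4)
    (hA : Module.finrank (kk B) (VQ B (OM B)) = 4) :
    (∃ e g h : ℍ[K], InOS B e ∧ InOS B g ∧ InOS B h ∧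
      ∃ E G H : VQ B M →ₗ[kk B] VQ B M, (∀ v, E (E v) = E v) ∧ (∀ v, G (H v) = E v) ∧
      (∀ v, H (G v) = v - E v) ∧ (∀ v, E (G v) = G v) ∧ (∀ v, H (E v) = H v) ∧
      (∀ x (hx : x ∈ M) (hy : e * x ∈ M), E (cl B M x hx) = cl B M (e * x) hy) ∧
      (∀ x (hx : x ∈ M) (hy : g * x ∈ M), G (cl B M x hx) = cl B M (g * x) hy) ∧
      (∀ x (hx : x ∈ M) (hy : h * x ∈ M), H (cl B M x hx) = cl B M (h * x) hy)) ∧
    (∃ x0 ∈ M, (¬ ∃ z ∈ M, x0 = (B.s : K) • z) ∧
      ∃ y ∈ M, ¬ ∃ a, InOS B a ∧ ∃ z ∈ M, y = a * x0 + (B.s : K) • z) := by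
  obtain ⟨e, g, h, he, hg, hh, hee, hgh, hhg, heg, hhe⟩ := hM K B
  obtain ⟨hmul, hadd, hstar, hsm, hN, h1, -⟩ := hO K B
  have E0 : ∀ v, (Lm B M e (fun x hx => hst e x he hx)) ((Lm B M e (fun x hx => hst e x he hx)) v)
      = (Lm B M e (fun x hx => hst e x he hx)) v := by
    intro v
    obtain ⟨x, hx, rfl⟩ := cl_surj B M v
    rw [Lm_cl, Lm_cl]
    exact relL B M hst (e * e) e hee x _ _ hx _ _ (by rw [mul_assoc]) rfl
  have G0 : ∀ v, (Lm B M g (fun x hx => hst g x hg hx)) ((Lm B M h (fun x hx => hst h x hh hx)) v)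
      = (Lm B M e (fun x hx => hst e x he hx)) v := by
    intro v
    obtain ⟨x, hx, rfl⟩ := cl_surj B M v
    rw [Lm_cl, Lm_cl, Lm_cl]
    exact relL B M hst (g * h) e hgh x _ _ hx _ _ (by rw [mul_assoc]) rfl
  have H0 : ∀ v, (Lm B M h (fun x hx => hst h x hh hx)) ((Lm B M g (fun x hx => hst g x hg hx)) v)
      = v - (Lm B M e (fun x hx => hst e x he hx)) v := by
    intro v
    obtain ⟨x, hx, rfl⟩ := cl_surj B M v
    rw [Lm_cl, Lm_cl, Lm_cl, cl_sub]
    exact relL B M hst (h * g) (1 - e) hhg x _ _ hx _ _ (by rw [mul_assoc]) (by rw [sub_mul, one_mul])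
  have EG0 : ∀ v, (Lm B M e (fun x hx => hst e x he hx)) ((Lm B M g (fun x hx => hst g x hg hx)) v)
      = (Lm B M g (fun x hx => hst g x hg hx)) v := by
    intro v
    obtain ⟨x, hx, rfl⟩ := cl_surj B M v
    rw [Lm_cl, Lm_cl]
    exact relL B M hst (e * g) g heg x _ _ hx _ _ (by rw [mul_assoc]) rfl
  have HE0 : ∀ v, (Lm B M h (fun x hx => hst h x hh hx)) ((Lm B M e (fun x hx => hst e x he hx)) v)
      = (Lm B M h (fun x hx => hst h x hh hx)) v := by
    intro v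
    obtain ⟨x, hx, rfl⟩ := cl_surj B M v
    rw [Lm_cl, Lm_cl, Lm_cl]
    exact relL B M hst (h * e) h hhe x _ _ hx _ _ (by rw [mul_assoc]) rfl
  refine ⟨⟨e, g, h, he, hg, hh, Lm B M e (fun x hx => hst e x he hx), Lm B M g (fun x hx => hst g x hg hx),
    Lm B M h (fun x hx => hst h x hh hx), E0, G0, H0, EG0, HE0, fun _ _ _ => rfl, fun _ _ _ => rfl,
    fun _ _ _ => rfl⟩, ?_⟩
  -- an element of `e M` outside `s M`
  have hx0 : ∃ x0 ∈ M, ¬ ∃ z ∈ M, e * x0 = (B.s : K) • z := by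
    by_contra hcon
    push Not at hcon
    have hE : ∀ v, (Lm B M e (fun x hx => hst e x he hx)) v = 0 := by
      intro v
      obtain ⟨x, hx, rfl⟩ := cl_surj B M v
      rw [Lm_cl, ← cl_zero, cl_eq]
      obtain ⟨z, hz, h2⟩ := hcon x hx
      exact ⟨z, hz, by rw [sub_zero]; exact h2⟩
    have hV : ∀ v : VQ B M, v = 0 := by
      intro v
      have h2 := H0 v
      rw [hE, sub_zero, ← EG0, hE, map_zero] at h2
      exact h2.symm
    haveI : Subsingleton (VQ B M) := ⟨fun a b => by rw [hV a, hV b]⟩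
    rw [Module.finrank_zero_of_subsingleton] at h4
    omega
  obtain ⟨x0, hx0, hne⟩ := hx0
  have hex0 : e * x0 ∈ M := hst e x0 he hx0
  refine ⟨e * x0, hex0, hne, ?_⟩
  by_contra hcon
  push Not at hcon
  have hOs : ∀ a, InOS B a → ∀ x ∈ OM B, x * a ∈ OM B := by
    intro a ha x hx
    rw [mem_OM] at hx ⊢
    exact hmul x a hx ha
  have hOO : ∀ o x, InOS B o → x ∈ OM B → o * x ∈ OM B := by
    intro o x ho hx
    rw [mem_OM] at hx ⊢
    exact hmul o x ho hx
  have h1O : (1 : ℍ[K]) ∈ OM B := (mem_OM B 1).2 h1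
  have key := mid_abs (k := kk B) (V := VQ B M) (A := VQ B (OM B)) (Rm B (OM B) (OM B) e (hOs e he))
    (Rm B (OM B) (OM B) h (hOs h hh)) (Rm B (OM B) (OM B) g (hOs g hg))
    (by
      intro v
      obtain ⟨x, hx, rfl⟩ := cl_surj B (OM B) v
      rw [Rm_cl, Rm_cl]
      exact relR B hO (OM B) hOO (e * e) e 1 h1O hee x _ _ ((mem_OM B x).1 hx) _ _ (by rw [mul_one, mul_assoc])
        (by rw [mul_one]))
    (by
      intro v
      obtain ⟨x, hx, rfl⟩ := cl_surj B (OM B) v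
      rw [Rm_cl, Rm_cl, Rm_cl]
      exact relR B hO (OM B) hOO (g * h) e 1 h1O hgh x _ _ ((mem_OM B x).1 hx) _ _ (by rw [mul_one, mul_assoc])
        (by rw [mul_one]))
    (by
      intro v
      obtain ⟨x, hx, rfl⟩ := cl_surj B (OM B) v
      rw [Rm_cl, Rm_cl, Rm_cl, cl_sub]
      exact relR B hO (OM B) hOO (h * g) (1 - e) 1 h1O hhg x _ _ ((mem_OM B x).1 hx) _ _
        (by rw [mul_one, mul_assoc]) (by rw [mul_one, mul_sub, mul_one]))
    (by
      intro v
      obtain ⟨x, hx, rfl⟩ := cl_surj B (OM B) v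
      rw [Rm_cl, Rm_cl]
      exact relR B hO (OM B) hOO (h * e) h 1 h1O hhe x _ _ ((mem_OM B x).1 hx) _ _ (by rw [mul_one, mul_assoc])
        (by rw [mul_one]))
    (by
      intro v
      obtain ⟨x, hx, rfl⟩ := cl_surj B (OM B) v
      rw [Rm_cl, Rm_cl, Rm_cl]
      exact relR B hO (OM B) hOO (e * g) g 1 h1O heg x _ _ ((mem_OM B x).1 hx) _ _ (by rw [mul_one, mul_assoc])
        (by rw [mul_one]))
    hA (Rm B (OM B) M (e * x0) (fun x hx => hst x _ ((mem_OM B x).1 hx) hex0))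
    (by
      intro v
      obtain ⟨x, hx, rfl⟩ := cl_surj B (OM B) v
      rw [Rm_cl, Rm_cl, Rm_cl]
      exact relR B hO M hst (e * e) e x0 hx0 hee x _ _ ((mem_OM B x).1 hx) _ _
        (by simp only [mul_assoc]) (by simp only [mul_assoc]))
    h4
  apply key
  rw [eq_top_iff]
  intro v _
  obtain ⟨y, hy, rfl⟩ := cl_surj B M v
  obtain ⟨a, ha, z, hz, h2⟩ := hcon y hy
  refine ⟨cl B (OM B) a ((mem_OM B a).2 ha), ?_⟩
  rw [Rm_cl, cl_eq]
  refine ⟨-z, M.neg_mem hz, ?_⟩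
  rw [h2, smul_neg]
  abel

theorem sqrt_mod (α : 𝓞 K) : ∃ c : 𝓞 K, B.s ∣ c ^ 2 + α := by
  have hx' := co_eq B α
  generalize B.co α 0 = a at hx'
  generalize B.co α 1 = b at hx'
  generalize B.co α 2 = c at hx'
  generalize B.co α 3 = d at hx'
  obtain ⟨a', ha⟩ := Int.even_mul_succ_self a
  obtain ⟨b', hb⟩ := Int.even_mul_succ_self b
  have ha' : (a : 𝓞 K) * (a + 1) = a' + a' := by exact_mod_cast ha
  have hb' : (b : 𝓞 K) * (b + 1) = b' + b' := by exact_mod_cast hb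
  refine ⟨((a : 𝓞 K) + b) + b * B.f, ?_⟩
  refine ⟨B.s * ((a' + a * b + b ^ 2) + ((a + b) * b + b') * B.f) + (c + d * B.f), ?_⟩
  rw [hx']
  linear_combination (b : 𝓞 K) ^ 2 * B.hf + ha' + B.f * hb'
    - ((a' + a * b + b ^ 2) + ((a + b) * b + b') * B.f) * B.hs

theorem t_FIVE : S_ORD → S_MOD → S_DUAL → S_FIVE := by
  intro hO hM _ K _ _ B I n hL
  obtain ⟨hmul, hadd, hstar, hsm, hN, h1, -⟩ := hO K B
  set M := SM B hO I hL.mul with hMdef
  have hsub : M ≤ OM B := by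
    intro x hx
    exact (mem_OM B x).2 (hL.sub x hx)
  obtain ⟨m, hm, hmI⟩ := hL.big
  have hbig : ∀ x ∈ OM B, (m : ℍ[K]) * x ∈ M := by
    intro x hx
    have h2 := hL.mul x m ((mem_OM B x).1 hx) hmI
    have h3 : (m : ℍ[K]) * x = x * (m : ℍ[K]) := Nat.cast_comm m x
    rw [h3]
    exact h2
  have h4 := finrank_VQ B M hsub m hm hbig
  have hA := finrank_VQ B (OM B) le_rfl 1 one_pos (by intro x hx; rw [Nat.cast_one, one_mul]; exact hx)
  have hst : ∀ o x, InOS B o → x ∈ M → o * x ∈ M := hL.mul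
  obtain ⟨⟨e, g, h, he, hg, hh, E, G, H, hEE, hGH, hHG, hEG, hHE, hEc, hGc, hHc⟩, x0, hx0, hx0s, y0, hy0, hy0n⟩ :=
    pack B hO hM M hst h4 hA
  constructor
  · intro F hF
    have hsJ : ∀ J ∈ F, ∀ o x, InOS B o → x ∈ J → o * x ∈ J := fun J hJ => (hF J hJ).2.2.1
    let f : {J // J ∈ F} → Submodule (kk B) (VQ B M) := fun J => JV B M (SM B hO J.1 (hsJ J.1 J.2))
    have hmem : ∀ (J : {J // J ∈ F}) (x : ℍ[K]) (hx : x ∈ M), cl B M x hx ∈ f J ↔ x ∈ J.1 := by
      intro J x hx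
      exact mem_JV B M _ (fun y hy => (hF J.1 J.2).2.1 y hy) x hx
    have hinj : Function.Injective f := by
      intro J J' hJJ
      apply Subtype.ext
      ext x
      constructor
      · intro hx
        have hxM : x ∈ M := (hF J.1 J.2).1 x hx
        rw [← hmem J' x hxM, ← hJJ, hmem J x hxM]
        exact hx
      · intro hx
        have hxM : x ∈ M := (hF J'.1 J'.2).1 x hx
        rw [← hmem J x hxM, hJJ, hmem J' x hxM]
        exact hx
    classical
    have h5 := five_abs (card_kk B) E G H hEE hGH hHG hEG hHE h4 (F.attach.image f) (by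
      intro P hP
      obtain ⟨J, -, rfl⟩ := Finset.mem_image.1 hP
      obtain ⟨hJ1, hJ2, hJ3, ⟨x, hx, hxJ⟩, ⟨y, hy, hyn⟩⟩ := hF J.1 J.2
      refine ⟨?_, ?_, ?_⟩
      · intro hb
        have hyM : y ∈ M := hJ1 y hy
        have h6 : cl B M y hyM ∈ f J := (hmem J y hyM).2 hy
        rw [hb, Submodule.mem_bot, ← cl_zero, cl_eq] at h6
        obtain ⟨z, hz, h7⟩ := h6
        rw [sub_zero] at h7
        exact hyn ⟨z, hz, h7⟩
      · intro ht
        have hxM : x ∈ M := hx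
        have h6 : cl B M x hxM ∈ f J := by rw [ht]; trivial
        exact hxJ ((hmem J x hxM).1 h6)
      · intro v hv
        obtain ⟨x, hx, rfl⟩ := cl_surj B M v
        have h6 := (hmem J x hx).1 hv
        refine ⟨?_, ?_, ?_⟩
        · rw [hEc x hx (hst e x he hx), hmem]
          exact hJ3 e x he h6
        · rw [hGc x hx (hst g x hg hx), hmem]
          exact hJ3 g x hg h6
        · rw [hHc x hx (hst h x hh hx), hmem]
          exact hJ3 h x hh h6)
    rw [Finset.card_image_of_injective _ hinj, Finset.card_attach] at h5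
    exact h5
  · intro X α hX hIX
    obtain ⟨c, hc⟩ := sqrt_mod B α
    -- `x N = x X + c x`
    have hsI : ∀ x ∈ I, (B.s : K) • x ∈ I := fun x hx => M.smul_mem B.s hx
    have htI : ∀ (t : 𝓞 K), ∀ x ∈ I, (t : K) • x ∈ I := fun t x hx => M.smul_mem t hx
    by_cases hcase : ∃ x ∈ I, ¬ ∃ y ∈ I, x * X + (c : K) • x = (B.s : K) • y
    · obtain ⟨x1, hx1, hx1n⟩ := hcase
      let J : AddSubgroup ℍ[K] :=
        { carrier := {z | ∃ x ∈ I, ∃ y ∈ I, z = (x * X + (c : K) • x) + (B.s : K) • y}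
          add_mem' := by
            rintro _ _ ⟨x, hx, y, hy, rfl⟩ ⟨x', hx', y', hy', rfl⟩
            refine ⟨x + x', I.add_mem hx hx', y + y', I.add_mem hy hy', ?_⟩
            rw [add_mul, smul_add, smul_add]
            abel
          zero_mem' := ⟨0, I.zero_mem, 0, I.zero_mem, by simp⟩
          neg_mem' := by
            rintro _ ⟨x, hx, y, hy, rfl⟩
            refine ⟨-x, I.neg_mem hx, -y, I.neg_mem hy, ?_⟩
            rw [neg_mul, smul_neg, smul_neg]
            abel }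
      have hJ : ∀ z, z ∈ J ↔ ∃ x ∈ I, ∃ y ∈ I, z = (x * X + (c : K) • x) + (B.s : K) • y := fun z => Iff.rfl
      refine ⟨J, ⟨?_, ?_, ?_, ?_, ?_⟩, ?_⟩
      · rintro z ⟨x, hx, y, hy, rfl⟩
        exact I.add_mem (I.add_mem (hIX x hx) (htI c x hx)) (hsI y hy)
      · intro x hx
        exact ⟨0, I.zero_mem, x, hx, by simp⟩
      · rintro o z ho ⟨x, hx, y, hy, rfl⟩
        refine ⟨o * x, hL.mul o x ho hx, o * y, hL.mul o y ho hy, ?_⟩
        rw [mul_add, mul_add, mul_smul_comm, mul_smul_comm, mul_assoc]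
      · by_contra hcon
        push Not at hcon
        apply hx1n
        obtain ⟨y, hy, z, hz, h2⟩ := hcon x1 hx1
        obtain ⟨d, hd⟩ := hc
        have hd' : (c : K) ^ 2 + (α : K) = (B.s : K) * d := by
          have := congrArg (algebraMap (𝓞 K) K) hd
          rw [map_add, map_pow, map_mul] at this
          exact this
        have hss := sK_sq B
        refine ⟨((d : K) • y - (B.s : K) • ((α : K) • y)) + (B.s : K) • ((c : K) • (y * X))
          + (z * X + (c : K) • z), ?_, ?_⟩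
        · refine I.add_mem (I.add_mem (I.sub_mem (htI d y hy) (hsI _ (htI α y hy))) ?_) ?_
          · exact hsI _ (htI c _ (hIX y hy))
          · exact I.add_mem (hIX z hz) (htI c z hz)
        · have h3 : y * X * X = -((α : K) • y) := by
            rw [mul_assoc, hX, mul_neg, Quaternion.mul_coe_eq_smul]
          rw [h2, add_mul, add_mul, h3, smul_mul_assoc, smul_mul_assoc, smul_add, smul_add, smul_add,
            smul_add, smul_add, smul_sub]
          simp only [smul_smul]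
          have e1 : (B.s : K) * (B.s * α) = 2 * α := by rw [← hss]; ring
          have e2 : (B.s : K) * (B.s * c) = 2 * c := by rw [← hss]; ring
          have e3 : (B.s : K) * d = c * c + α := by rw [← hd']; ring
          rw [e1, e2, e3]
          module
      · refine ⟨x1 * X + (c : K) • x1, ⟨x1, hx1, 0, I.zero_mem, by simp⟩, hx1n⟩
      · rintro z ⟨x, hx, y, hy, rfl⟩
        refine ⟨x * X, hIX x hx, y * X, hIX y hy, ?_⟩
        rw [add_mul, add_mul, smul_mul_assoc, smul_mul_assoc]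
    · push Not at hcase
      let J : AddSubgroup ℍ[K] :=
        { carrier := {z | ∃ a, InOS B a ∧ ∃ y ∈ I, z = a * x0 + (B.s : K) • y}
          add_mem' := by
            rintro _ _ ⟨x, hx, y, hy, rfl⟩ ⟨x', hx', y', hy', rfl⟩
            refine ⟨x + x', hadd x x' hx hx', y + y', I.add_mem hy hy', ?_⟩
            rw [add_mul, smul_add]
            abel
          zero_mem' := ⟨0, (mem_OM B 0).1 (OM B).zero_mem, 0, I.zero_mem, by simp⟩
          neg_mem' := by
            rintro _ ⟨x, hx, y, hy, rfl⟩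
            refine ⟨-x, (mem_OM B _).1 ((OM B).neg_mem ((mem_OM B _).2 hx)), -y, I.neg_mem hy, ?_⟩
            rw [neg_mul, smul_neg]
            abel }
      refine ⟨J, ⟨?_, ?_, ?_, ⟨y0, hy0, ?_⟩, ⟨x0, ?_, hx0s⟩⟩, ?_⟩
      · rintro z ⟨x, hx, y, hy, rfl⟩
        exact I.add_mem (hL.mul x x0 hx hx0) (hsI y hy)
      · intro x hx
        exact ⟨0, (mem_OM B 0).1 (OM B).zero_mem, x, hx, by simp⟩
      · rintro o z ho ⟨x, hx, y, hy, rfl⟩
        refine ⟨o * x, hmul o x ho hx, o * y, hL.mul o y ho hy, ?_⟩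
        rw [mul_add, mul_smul_comm, mul_assoc]
      · exact hy0n
      · exact ⟨1, h1, 0, I.zero_mem, by simp⟩
      · rintro z ⟨x, hx, y, hy, rfl⟩
        have hzI : x * x0 + (B.s : K) • y ∈ I := I.add_mem (hL.mul x x0 hx hx0) (hsI y hy)
        obtain ⟨w, hw, h2⟩ := hcase _ hzI
        refine ⟨-((c : K) • x), ?_, w - (c : K) • y, I.sub_mem hw (htI c y hy), ?_⟩
        · rw [← mem_OM]
          exact (OM B).neg_mem ((OM B).smul_mem c ((mem_OM B x).2 hx))
        · have h3 : (x * x0 + (B.s : K) • y) * X = (B.s : K) • w - (c : K) • (x * x0 + (B.s : K) • y) := by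
            rw [← h2]; abel
          rw [h3, smul_sub, smul_add, neg_mul, smul_mul_assoc]
          rw [smul_comm (B.s : K) (c : K) y]
          abel

end Pool.Agent.U788.TU
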